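import Pool.Agent.H33.Chrom
import Mathlib

/-!
# Deleting one vertex can lower the chromatic Ramsey number by a power
-/

set_option autoImplicit false

namespace Pool.Agent.Results.MP_c4704f_co.VertexDeletion

/-- Every colouring of the edges of `H` with two colours contains a monochromatic copy of `G`:
an injective map of the vertices of `G` which sends all edges of `G` to edges of `H` of one
colour. -/
def Arrows {V W : Type} (H : SimpleGraph V) (G : SimpleGraph W) : Prop :=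
  ∀ col : H.edgeSet → Bool, ∃ (b : Bool) (f : W → V)
    (hf : ∀ x y : W, G.Adj x y → H.Adj (f x) (f y)),
    Function.Injective f ∧ ∀ (x y : W) (h : G.Adj x y), col ⟨s(f x, f y), hf x y h⟩ = b

/-- `N` is the chromatic Ramsey number of `G`: the least `N` for which some finite graph `H` of
chromatic number `N` arrows `G`. -/
def IsChromaticRamsey {W : Type} (G : SimpleGraph W) (N : ℕ) : Prop :=
  IsLeast {N : ℕ | ∃ (m : ℕ) (H : SimpleGraph (Fin m)),
    H.chromaticNumber = (N : ℕ∞) ∧ Arrows H G} N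

theorem Arrows.congr {V W W' : Type} {H : SimpleGraph V} {G : SimpleGraph W}
    {G' : SimpleGraph W'} (e : G' ≃g G) (h : Arrows H G) : Arrows H G' := by
  intro col
  obtain ⟨b, f, hf, hinj, hcol⟩ := h col
  refine ⟨b, fun x => f (e x), fun x y hxy => hf _ _ (e.map_adj_iff.2 hxy),
    fun x y hxy => e.injective (hinj hxy), fun x y hxy => hcol _ _ (e.map_adj_iff.2 hxy)⟩

theorem isChromaticRamsey_congr {W W' : Type} {G : SimpleGraph W}
    {G' : SimpleGraph W'} (e : G' ≃g G) {N : ℕ} (h : IsChromaticRamsey G N) :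
    IsChromaticRamsey G' N := by
  unfold IsChromaticRamsey at h ⊢
  have : {N : ℕ | ∃ (m : ℕ) (H : SimpleGraph (Fin m)),
      H.chromaticNumber = (N : ℕ∞) ∧ Arrows H G'} =
      {N : ℕ | ∃ (m : ℕ) (H : SimpleGraph (Fin m)),
        H.chromaticNumber = (N : ℕ∞) ∧ Arrows H G} := by
    ext M
    constructor
    · rintro ⟨m, H, h1, h2⟩
      exact ⟨m, H, h1, h2.congr e.symm⟩
    · rintro ⟨m, H, h1, h2⟩
      exact ⟨m, H, h1, h2.congr e⟩
  rw [this]
  exact h

theorem arrows_iff {n m : ℕ} (G : SimpleGraph (Fin n)) (H : SimpleGraph (Fin m)) :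
    Arrows H G ↔ ∀ col : Fin m → Fin m → Bool, (∀ a b, col a b = col b a) →
      ∃ (f : Fin n → Fin m) (b : Bool), Function.Injective f ∧
        ∀ x y : Fin n, G.Adj x y → H.Adj (f x) (f y) ∧ col (f x) (f y) = b := by
  classical
  constructor
  · intro h col hsym
    obtain ⟨b, f, hf, hinj, hcol⟩ := h (fun e => Sym2.lift ⟨col, hsym⟩ e.1)
    exact ⟨f, b, hinj, fun x y hxy => ⟨hf x y hxy, hcol x y hxy⟩⟩
  · intro h col
    obtain ⟨f, b, hinj, hf⟩ := h (fun a b => if h : H.Adj a b then col ⟨s(a, b), h⟩ else true)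
      (by
        intro a b
        by_cases hab : H.Adj a b
        · rw [dif_pos hab, dif_pos hab.symm]
          congr 1
          exact Subtype.ext Sym2.eq_swap
        · rw [dif_neg hab, dif_neg (fun h => hab h.symm)])
    refine ⟨b, f, fun x y hxy => (hf x y hxy).1, hinj, fun x y hxy => ?_⟩
    have := (hf x y hxy).2
    rw [dif_pos (hf x y hxy).1] at this
    exact this

/-- The set of the colouring form. -/
def Host {n : ℕ} (G : SimpleGraph (Fin n)) (N : ℕ) : Prop :=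
  ∃ (m : ℕ) (H : SimpleGraph (Fin m)), H.Colorable N ∧
      ∀ col : Fin m → Fin m → Bool, (∀ a b, col a b = col b a) →
        ∃ (f : Fin n → Fin m) (b : Bool), Function.Injective f ∧
          ∀ x y : Fin n, G.Adj x y → H.Adj (f x) (f y) ∧ col (f x) (f y) = b

theorem exists_ramsey {n : ℕ} (G : SimpleGraph (Fin n)) :
    ∃ N : ℕ, IsChromaticRamsey G N ∧ Host G N ∧ ∀ M, Host G M → N ≤ M := by
  classical
  have key : ∀ M, Host G M → ∃ N, N ≤ M ∧ ∃ (m : ℕ) (H : SimpleGraph (Fin m)),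
      H.chromaticNumber = (N : ℕ∞) ∧ Arrows H G := by
    rintro M ⟨m, H, hH, hcol⟩
    have h1 : H.chromaticNumber ≤ (M : ℕ∞) := hH.chromaticNumber_le
    obtain ⟨N, hN⟩ := ENat.ne_top_iff_exists.1 (ne_top_of_le_ne_top (ENat.natCast_ne_top M) h1)
    refine ⟨N, ?_, m, H, hN.symm, (arrows_iff G H).2 hcol⟩
    rw [← hN] at h1
    exact_mod_cast h1
  have key2 : ∀ N : ℕ, (∃ (m : ℕ) (H : SimpleGraph (Fin m)),
      H.chromaticNumber = (N : ℕ∞) ∧ Arrows H G) → Host G N := by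
    rintro N ⟨m, H, hH, hA⟩
    exact ⟨m, H, SimpleGraph.chromaticNumber_le_iff_colorable.1 hH.le, (arrows_iff G H).1 hA⟩
  obtain ⟨M, hM⟩ := Pool.Agent.H33.nonempty_host G
  have hne : ∃ N : ℕ, ∃ (m : ℕ) (H : SimpleGraph (Fin m)),
      H.chromaticNumber = (N : ℕ∞) ∧ Arrows H G := by
    obtain ⟨N, -, hN⟩ := key M hM
    exact ⟨N, hN⟩
  refine ⟨Nat.find hne, ⟨Nat.find_spec hne, fun N hN => Nat.find_min' hne hN⟩,
    key2 _ (Nat.find_spec hne), fun M hM => ?_⟩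
  obtain ⟨N, hNM, hN⟩ := key M hM
  exact (Nat.find_min' hne hN).trans hNM

/-- The graph is the cone minus its apex. -/
def isoCone {n : ℕ} (G : SimpleGraph (Fin n)) :
    (Pool.Agent.H33.cone G).induce ({0}ᶜ : Set (Fin (n + 1))) ≃g G where
  toFun x := x.1.pred x.2
  invFun x := ⟨x.succ, Fin.succ_ne_zero x⟩
  left_inv x := Subtype.ext (Fin.succ_pred x.1 x.2)
  right_inv x := Fin.pred_succ x
  map_rel_iff' := by
    rintro ⟨x, hx⟩ ⟨y, hy⟩
    have h1 := Pool.Agent.H33.cone_adj_succ G (x.pred hx) (y.pred hy)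
    have h2 : (x.pred hx).succ = x := Fin.succ_pred x hx
    have h3 : (y.pred hy).succ = y := Fin.succ_pred y hy
    rw [h2, h3] at h1
    exact h1.symm

/-- The construction of `Pool.Agent.H33.main_construction`, with the remark that the graph has an
edge (this form: helper84). -/
theorem construction (k : ℕ) (hk : 1 ≤ k) :
    ∃ (n : ℕ) (G : SimpleGraph (Fin n)), (∃ x y, G.Adj x y) ∧ Host G (16 ^ k + 1) ∧
      ∀ N : ℕ, Host (Pool.Agent.H33.cone G) N → 20 ^ k < N := by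
  have h16 : 16 ≤ 16 ^ k := by
    calc 16 = 16 ^ 1 := by norm_num
      _ ≤ 16 ^ k := Nat.pow_le_pow_right (by norm_num) hk
  obtain ⟨V, i1, i2, G, hG, hGY⟩ := Pool.Agent.H33.exists_universal (16 ^ k + 1) (by omega)
  obtain ⟨W, j1, j2, F, hW, hF⟩ := Pool.Agent.H33.good_pow k
  set h : ℝ := Real.sqrt ((16 ^ k + 1 : ℕ) : ℝ) - 1 with hh
  have hlt : (4 : ℝ) ^ k < h + 1 := by
    rw [hh, sub_add_cancel]
    apply Real.lt_sqrt_of_sq_lt
    push_cast
    have : ((4 : ℝ) ^ k) ^ 2 = 16 ^ k := by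
      rw [← pow_mul, mul_comm, pow_mul]; norm_num
    rw [this]
    linarith
  have hlt1 : (1 : ℝ) < h + 1 := lt_of_le_of_lt (one_le_pow₀ (by norm_num)) hlt
  have e := Fintype.equivFin V
  let n := Fintype.card V
  let G' : SimpleGraph (Fin n) := G.comap e.symm
  let ι : G →g G' := ⟨e, fun {x y} hxy => by
    simp only [G', SimpleGraph.comap_adj, Equiv.symm_apply_apply]
    exact hxy⟩
  let ι' : G' →g G := ⟨e.symm, fun {x y} hxy => hxy⟩
  refine ⟨n, G', ?_, ?_, ?_⟩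
  · by_contra hne
    push Not at hne
    let ψ : G →g (⊤ : SimpleGraph (Fin 1))ᶜ := ⟨fun _ => 0, fun {x y} hxy =>
      absurd (ι.map_adj hxy) (hne _ _)⟩
    exact (Pool.Agent.H33.good_top 1).no_hom_compl hG hlt1 ψ
  · apply Pool.Agent.H33.upper
    intro Y
    rcases hGY Y with ⟨⟨φ⟩⟩ | ⟨⟨φ⟩⟩
    · exact Or.inl ⟨φ.comp ι'⟩
    · exact Or.inr ⟨φ.comp ι'⟩
  · intro N hN
    rw [← hW]
    refine Pool.Agent.H33.lower (Pool.Agent.H33.cone G') F ?_ ?_ hN
    · intro φ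
      let ψ : G →g F := ⟨fun x => φ (Fin.succ (ι x)), fun {x y} hxy =>
        φ.map_adj ((Pool.Agent.H33.cone_adj_succ G' _ _).2 (ι.map_adj hxy))⟩
      refine hF.no_hom_local hG (by push_cast; exact hlt) (φ 0) ψ ?_
      intro x
      exact φ.map_adj (Pool.Agent.H33.cone_adj_zero G' _)
    · intro φ
      let ψ : G →g Fᶜ := ⟨fun x => φ (Fin.succ (ι x)), fun {x y} hxy =>
        φ.map_adj ((Pool.Agent.H33.cone_adj_succ G' _ _).2 (ι.map_adj hxy))⟩
      exact hF.no_hom_compl hG hlt ψ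

theorem exists_unique {V : Type} [Finite V] (G : SimpleGraph V) :
    ∃! N : ℕ, IsChromaticRamsey G N := by
  obtain ⟨n, ⟨e⟩⟩ := Finite.exists_equiv_fin V
  obtain ⟨N, hN, -, -⟩ := exists_ramsey (G.comap e.symm)
  have i : G ≃g G.comap e.symm :=
    { toEquiv := e
      map_rel_iff' := by
        intro a b
        simp }
  have hG : IsChromaticRamsey G N := isChromaticRamsey_congr i hN
  exact ⟨N, hG, fun M hM => IsLeast.unique hM hG⟩

theorem main (k : ℕ) (hk : 1 ≤ k) :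
    ∃ (n : ℕ) (G : SimpleGraph (Fin n)) (v : Fin n) (r R : ℕ),
      (∀ x, x ≠ v → G.Adj v x) ∧ (∃ x y, x ≠ v ∧ y ≠ v ∧ G.Adj x y) ∧
      IsChromaticRamsey (G.induce ({v}ᶜ : Set (Fin n))) r ∧ IsChromaticRamsey G R ∧
      r ≤ 16 ^ k + 1 ∧ 20 ^ k < R := by
  obtain ⟨n, G, ⟨a, b, hab⟩, hup, hlow⟩ := construction k hk
  obtain ⟨r, hr, -, hr2⟩ := exists_ramsey G
  obtain ⟨R, hR, hR1, -⟩ := exists_ramsey (Pool.Agent.H33.cone G)
  refine ⟨n + 1, Pool.Agent.H33.cone G, 0, r, R, ?_, ⟨a.succ, b.succ, Fin.succ_ne_zero _,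
    Fin.succ_ne_zero _, (Pool.Agent.H33.cone_adj_succ G _ _).2 hab⟩,
    isChromaticRamsey_congr (isoCone G) hr, hR, hr2 _ hup, hlow R hR1⟩
  intro x hx
  have := Pool.Agent.H33.cone_adj_zero G (x.pred hx)
  rwa [Fin.succ_pred] at this

/-- Every finite graph `G` has exactly one chromatic Ramsey number `R_χ(G)`.  For every `k ≥ 1`
there are a finite graph `G` and a vertex `v` of `G`, joined to all other vertices, such that
`G - v` has an edge, `R_χ(G - v) ≤ 16^k + 1`, `R_χ(G) > 20^k` and `R_χ(G - v)^20 ≤ R_χ(G)^19`.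
In particular for every `c > 0` some finite graph `G` has a vertex `v` such that `G - v` (and `G`)
has an edge and `R_χ(G - v) < c R_χ(G)`. -/
theorem result :
    (∀ (V : Type) [Finite V] (G : SimpleGraph V), ∃! N : ℕ, IsChromaticRamsey G N) ∧
    (∀ k : ℕ, 1 ≤ k → ∃ (n : ℕ) (G : SimpleGraph (Fin n)) (v : Fin n) (r R : ℕ),
      (∀ x, x ≠ v → G.Adj v x) ∧ (∃ x y, x ≠ v ∧ y ≠ v ∧ G.Adj x y) ∧
      IsChromaticRamsey (G.induce ({v}ᶜ : Set (Fin n))) r ∧ IsChromaticRamsey G R ∧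
      r ≤ 16 ^ k + 1 ∧ 20 ^ k < R ∧ r ^ 20 ≤ R ^ 19) ∧
    (∀ c : ℝ, 0 < c → ∃ (n : ℕ) (G : SimpleGraph (Fin n)) (v : Fin n) (r R : ℕ),
      (∃ x y, x ≠ v ∧ y ≠ v ∧ G.Adj x y) ∧
      IsChromaticRamsey (G.induce ({v}ᶜ : Set (Fin n))) r ∧ IsChromaticRamsey G R ∧
      (r : ℝ) < c * (R : ℝ)) := by
  have h1 : ∀ k : ℕ, 1 ≤ k → ∃ (n : ℕ) (G : SimpleGraph (Fin n)) (v : Fin n) (r R : ℕ),
      (∀ x, x ≠ v → G.Adj v x) ∧ (∃ x y, x ≠ v ∧ y ≠ v ∧ G.Adj x y) ∧
      IsChromaticRamsey (G.induce ({v}ᶜ : Set (Fin n))) r ∧ IsChromaticRamsey G R ∧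
      r ≤ 16 ^ k + 1 ∧ 20 ^ k < R ∧ r ^ 20 ≤ R ^ 19 := by
    intro k hk
    obtain ⟨n, G, v, r, R, hv, he, hr, hR, h16, h20⟩ := main k hk
    refine ⟨n, G, v, r, R, hv, he, hr, hR, h16, h20, ?_⟩
    have h17 : r ≤ 17 ^ k := by
      refine h16.trans ?_
      have : ∀ j : ℕ, 16 ^ (j + 1) + 1 ≤ 17 ^ (j + 1) := by
        intro j
        induction j with
        | zero => norm_num
        | succ j ih =>
          calc 16 ^ (j + 1 + 1) + 1 ≤ (16 ^ (j + 1) + 1) * 17 := by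
                rw [pow_succ 16 (j + 1)]; nlinarith [Nat.zero_le (16 ^ (j + 1))]
            _ ≤ 17 ^ (j + 1) * 17 := Nat.mul_le_mul_right _ ih
            _ = 17 ^ (j + 1 + 1) := (pow_succ _ _).symm
      obtain ⟨j, rfl⟩ : ∃ j, k = j + 1 := ⟨k - 1, by omega⟩
      exact this j
    calc r ^ 20 ≤ (17 ^ k) ^ 20 := Nat.pow_le_pow_left h17 _
      _ = (17 ^ 20) ^ k := by rw [← pow_mul, ← pow_mul, mul_comm]
      _ ≤ (20 ^ 19) ^ k := Nat.pow_le_pow_left (by norm_num) _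
      _ = (20 ^ k) ^ 19 := by rw [← pow_mul, ← pow_mul, mul_comm]
      _ ≤ R ^ 19 := Nat.pow_le_pow_left h20.le _
  refine ⟨fun V _ G => exists_unique G, h1, fun c hc => ?_⟩
  obtain ⟨k, hk1, hk2⟩ : ∃ k : ℕ, 1 ≤ k ∧ ((16 : ℝ) ^ k + 1) < c * 20 ^ k := by
    have h1 : Filter.Tendsto (fun k : ℕ => ((20 : ℝ) / 16) ^ k) Filter.atTop Filter.atTop :=
      tendsto_pow_atTop_atTop_of_one_lt (by norm_num)
    obtain ⟨k, hk1, hk2⟩ := (h1.eventually_ge_atTop (2 / c + 1)).and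
      (Filter.eventually_ge_atTop 1) |>.exists
    refine ⟨k, hk2, ?_⟩
    have h16 : (1 : ℝ) ≤ 16 ^ k := one_le_pow₀ (by norm_num)
    have h2 : (20 : ℝ) ^ k = (20 / 16) ^ k * 16 ^ k := by
      rw [← mul_pow]; norm_num
    have h3 : c * (2 / c + 1) = 2 + c := by field_simp
    have h4 : 2 + c ≤ c * (20 / 16) ^ k := by
      rw [← h3]; exact mul_le_mul_of_nonneg_left hk1 hc.le
    rw [h2]
    nlinarith
  obtain ⟨n, G, v, r, R, -, he, hr, hR, h16, h20, -⟩ := h1 k hk1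
  refine ⟨n, G, v, r, R, he, hr, hR, ?_⟩
  have h5 : (r : ℝ) ≤ 16 ^ k + 1 := by exact_mod_cast h16
  have h6 : (20 : ℝ) ^ k ≤ R := by exact_mod_cast h20.le
  have h7 := mul_le_mul_of_nonneg_left h6 hc.le
  linarith

end Pool.Agent.Results.MP_c4704f_co.VertexDeletion
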